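import Pool.Agent.Helper2.EL.Irr

/-!
Block EL-9b (project CF/EL of helper2, MP_b8862a_ag): potential absolute irreducibility over the field of
definition gives irreducibility over `ℂ` under all subgroups of finite index (Burnside's theorem through
the Jacobson density theorem of Mathlib).
-/

open Matrix

namespace MH

variable {n : Type*} [Fintype n] [DecidableEq n] {F : Type*} [Field F]

/-- Burnside's theorem: an irreducible set with scalar commutant generates everything. -/
private lemma burnside54 [Nonempty n] (S : Set (Module.End F (n → F)))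
    (h1 : ∀ W : Submodule F (n → F), (∀ g ∈ S, ∀ w ∈ W, g w ∈ W) → W = ⊥ ∨ W = ⊤)
    (h2 : ∀ T : Module.End F (n → F), (∀ g ∈ S, g * T = T * g) →
      ∃ c : F, T = c • (1 : Module.End F (n → F)))
    (T : Module.End F (n → F)) : T ∈ Algebra.adjoin F S := by
  classical
  set A := Algebra.adjoin F S with hA
  have hmem : ∀ g ∈ S, g ∈ A := fun g hg => Algebra.subset_adjoin hg
  have hs : IsSimpleModule A (n → F) := by
    rw [isSimpleModule_iff]
    refine { exists_pair_ne := ⟨⊥, ⊤, bot_ne_top⟩, eq_bot_or_eq_top := fun U => ?_ }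
    rcases h1 (U.restrictScalars F) (fun g hg w hw => U.smul_mem (⟨g, hmem g hg⟩ : A) hw) with h | h
    · left
      exact (Submodule.restrictScalars_eq_bot_iff F A (n → F)).mp h
    · right
      exact (Submodule.restrictScalars_eq_top_iff F A (n → F)).mp h
  have hc : ∀ c : Module.End A (n → F), ∃ a : F, ∀ v, c v = a • v := by
    intro c
    obtain ⟨a, ha⟩ := h2 (c.restrictScalars F) (fun g hg => by
      apply LinearMap.ext
      intro v
      exact (c.map_smul (⟨g, hmem g hg⟩ : A) v).symm)
    exact ⟨a, fun v => congrArg (fun T : Module.End F (n → F) => T v) ha⟩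
  let f : Module.End (Module.End A (n → F)) (n → F) :=
    { toFun := T
      map_add' := T.map_add
      map_smul' := by
        intro c v
        obtain ⟨a, ha⟩ := hc c
        change T (c v) = c (T v)
        rw [ha, ha, map_smul] }
  obtain ⟨r, hr⟩ := jacobson_density (R := A) (M := n → F) f (Finset.univ.image fun i : n => (Pi.single i (1 : F) : n → F))
  have e : T = (r : Module.End F (n → F)) := by
    apply LinearMap.pi_ext'
    intro i
    apply LinearMap.ext_ring
    exact hr _ (Finset.mem_image_of_mem _ (Finset.mem_univ i))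
  rw [e]
  exact r.2

/-- A subspace stable under all matrices with entries in the image of `F` is trivial. -/
private lemma trivial54 (W : Submodule ℂ (n → ℂ))
    (h : ∀ i j, ∀ w ∈ W, (Matrix.single i j (1 : ℂ)) *ᵥ w ∈ W) : W = ⊥ ∨ W = ⊤ := by
  rcases eq_or_ne W ⊥ with h0 | h0
  · exact Or.inl h0
  · right
    obtain ⟨w, hw, hw0⟩ := (Submodule.ne_bot_iff W).mp h0
    obtain ⟨j, hj⟩ := Function.ne_iff.mp hw0
    have h1 : ∀ i, (Pi.single i (1 : ℂ) : n → ℂ) ∈ W := by
      intro i
      have h2 := W.smul_mem (w j)⁻¹ (h i j w hw)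
      have h3 : (w j)⁻¹ • ((Matrix.single i j (1 : ℂ)) *ᵥ w) = Pi.single i (1 : ℂ) := by
        funext l
        rw [Pi.smul_apply, smul_eq_mul, Matrix.mulVec, dotProduct, Finset.sum_eq_single j]
        · rw [Matrix.single_apply, Pi.single_apply]
          by_cases hl : i = l
          · subst hl
            simp [inv_mul_cancel₀ hj]
          · simp [hl, Ne.symm hl]
        · intro b _ hb
          rw [Matrix.single_apply, if_neg (fun h => hb h.2.symm), zero_mul]
        · intro h; exact absurd (Finset.mem_univ _) h
      rwa [h3] at h2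
    rw [eq_top_iff]
    intro v _
    have h4 : v = ∑ i, v i • (Pi.single i (1 : ℂ) : n → ℂ) := by
      funext l
      simp [Finset.sum_apply, Pi.single_apply]
    rw [h4]
    exact W.sum_mem fun i _ => W.smul_mem _ (h1 i)

theorem vIrr_of_potIrr (ι : F →+* ℂ) {Γ : Subgroup (GL n F)} (h : PotIrr Γ) :
    VIrr (Γ.map (Matrix.GeneralLinearGroup.map (n := n) ι)) := by
  classical
  intro Γ'' hle hidx W hW
  rcases isEmpty_or_nonempty n with hn | hn
  · exact trivial54 W fun i => (hn.false i).elim
  set φ := Matrix.GeneralLinearGroup.map (n := n) ι with hφ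
  obtain ⟨hirr, hcom⟩ := h (Γ ⊓ Γ''.comap φ) inf_le_left (by
    rw [Subgroup.inf_relIndex_left, Subgroup.relIndex_comap]
    exact hidx)
  have hall := burnside54 (F := F) {T : Module.End F (n → F) |
      ∃ g ∈ Γ ⊓ Γ''.comap φ, T = Matrix.toLin' (g : Matrix n n F)}
    (fun U hU => hirr U fun g hg w hw => by
      have := hU _ ⟨g, hg, rfl⟩ w hw
      rwa [Matrix.toLin'_apply] at this)
    (fun T hT => by
      obtain ⟨c, hc⟩ := hcom (LinearMap.toMatrix' T) (fun g hg => by
        have h1 := hT _ ⟨g, hg, rfl⟩
        have h2 := congrArg LinearMap.toMatrix' h1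
        rwa [LinearMap.toMatrix'_mul, LinearMap.toMatrix'_mul, LinearMap.toMatrix'_toLin'] at h2)
      refine ⟨c, ?_⟩
      have h3 := congrArg Matrix.toLin' hc
      rw [Matrix.toLin'_toMatrix', map_smul, Matrix.toLin'_one] at h3
      exact h3)
  have hstab : ∀ T : Module.End F (n → F), ∀ w ∈ W,
      ((LinearMap.toMatrix' T).map ι) *ᵥ w ∈ W := by
    intro T
    induction hall T using Algebra.adjoin_induction with
    | mem T hT =>
      obtain ⟨g, hg, rfl⟩ := hT
      intro w hw
      have h1 := hW (φ g) hg.2 w hw
      rw [LinearMap.toMatrix'_toLin']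
      exact h1
    | algebraMap c =>
      intro w hw
      have e : (LinearMap.toMatrix' (algebraMap F (Module.End F (n → F)) c)).map ι =
          ι c • (1 : Matrix n n ℂ) := by
        ext i j
        rw [Matrix.map_apply, LinearMap.toMatrix'_apply, Module.algebraMap_end_apply,
          Matrix.smul_apply, Matrix.one_apply]
        by_cases hij : i = j
        · subst hij; simp
        · simp [hij]
      rw [e, Matrix.smul_mulVec, Matrix.one_mulVec]
      exact W.smul_mem _ hw
    | add T T' _ _ h1 h2 =>
      intro w hw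
      rw [map_add, Matrix.map_add ι (fun a b => map_add ι a b), Matrix.add_mulVec]
      exact W.add_mem (h1 w hw) (h2 w hw)
    | mul T T' _ _ h1 h2 =>
      intro w hw
      rw [LinearMap.toMatrix'_mul, Matrix.map_mul, ← Matrix.mulVec_mulVec]
      exact h1 _ (h2 w hw)
  apply trivial54
  intro i j w hw
  have h1 := hstab (Matrix.toLin' (Matrix.single i j (1 : F))) w hw
  rw [LinearMap.toMatrix'_toLin', Matrix.map_single, map_one] at h1
  exact h1

end MH
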